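import Pool.Agent.MP_c69980_ag.H43.Spec4

/-!
Elements integral over the rings of logarithmic derivatives have small proximity function.
-/

set_option autoImplicit false

namespace Pool.Agent.MP_c69980_ag.H43

open MvPolynomial H60 Finset Filter Topology Metric Real

namespace Sr

section Gen
variable {l : Filter ℕ} {r τ : ℕ → ℝ} {κ : ℕ → ℂ → ℝ}

lemma monoE {g h : ℕ → ℂ → ℝ} (hg : Sm l r τ g)
    (hc : ∀ᶠ k in l, ContinuousOn (h k) (sphere 0 |r k|))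
    (hp : ∀ᶠ k in l, ∀ z ∈ sphere (0 : ℂ) |r k|, 0 ≤ h k z ∧ h k z ≤ g k z) : Sm l r τ h := by
  intro ε hε
  filter_upwards [hg ε hε, hc, hp] with k a c p
  exact ⟨c, (circleAverage_mono (pl_int c) (pl_int a.1)
    fun z hz => posLog_le_posLog (p z hz).1 (p z hz).2).trans a.2⟩

lemma sm_one (hτ : Tendsto τ l atTop) : Sm l r τ 1 := by
  intro ε hε
  filter_upwards [hτ.eventually_ge_atTop 0] with k a
  exact ⟨continuousOn_const, by simpa [circleAverage_const] using mul_nonneg hε.le a⟩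

/-- Weights. -/
structure Wt (l : Filter ℕ) (r : ℕ → ℝ) (κ : ℕ → ℂ → ℝ) : Prop where
  h0 : ∀ n z, 0 ≤ κ n z
  h1 : ∀ n z, κ n z ≤ 1
  hc : ∀ᶠ n in l, ContinuousOn (κ n) (sphere 0 |r n|)

/-- Eventually continuous on the circles. -/
def Ct (l : Filter ℕ) (r : ℕ → ℝ) (f : ℕ → ℂ → ℂ) : Prop :=
  ∀ᶠ n in l, ContinuousOn (f n) (sphere 0 |r n|)

lemma Wt.sm (hκ : Wt l r κ) {f : ℕ → ℂ → ℂ} {g : ℕ → ℂ → ℝ} (hf : Ct l r f) (hg : Sm l r τ g)
    (e : ℕ) (h : ∀ᶠ n in l, ∀ z ∈ sphere (0 : ℂ) |r n|, κ n z ^ e * ‖f n z‖ ≤ g n z) :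
    Sm l r τ fun n z => κ n z ^ e * ‖f n z‖ :=
  monoE hg ((hκ.hc.and hf).mono fun _ a => (a.1.pow e).mul a.2.norm)
    (h.mono fun n a z hz => ⟨mul_nonneg (pow_nonneg (hκ.h0 n z) e) (norm_nonneg _), a z hz⟩)

lemma Wt.anti (hκ : Wt l r κ) {e e' : ℕ} (h : e ≤ e') (n : ℕ) (z x : ℂ) :
    κ n z ^ e' * ‖x‖ ≤ κ n z ^ e * ‖x‖ :=
  mul_le_mul_of_nonneg_right (pow_le_pow_of_le_one (hκ.h0 n z) (hκ.h1 n z) h) (norm_nonneg _)

/-- Functions that are small after multiplication by a power of the weight. -/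
def T (hτ : Tendsto τ l atTop) (hκ : Wt l r κ) : Subring (ℕ → ℂ → ℂ) where
  carrier := {f | Ct l r f ∧ ∃ e : ℕ, Sm l r τ fun n z => κ n z ^ e * ‖f n z‖}
  mul_mem' := by
    rintro f g ⟨c, e, h⟩ ⟨c', e', h'⟩
    have hc : Ct l r (f * g) := (Eventually.and c c').mono fun _ a => a.1.mul a.2
    refine ⟨hc, e + e', hκ.sm hc (h.mul hτ h') _ (Eventually.of_forall fun n z _ => le_of_eq ?_)⟩
    simp only [Pi.mul_apply, norm_mul]
    ring
  one_mem' := ⟨Eventually.of_forall fun _ => continuousOn_const, 0,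
    hκ.sm (f := 1) (Eventually.of_forall fun _ => continuousOn_const) (sm_one hτ) _
      (Eventually.of_forall fun n z _ => by simp)⟩
  add_mem' := by
    rintro f g ⟨c, e, h⟩ ⟨c', e', h'⟩
    have hc : Ct l r (f + g) := (Eventually.and c c').mono fun _ a => a.1.add a.2
    refine ⟨hc, e + e', hκ.sm hc (h.add hτ h') _ (Eventually.of_forall fun n z _ => ?_)⟩
    simp only [Pi.add_apply]
    have h1 := hκ.anti (Nat.le_add_right e e') n z (f n z)
    have h2 := hκ.anti (Nat.le_add_left e' e) n z (g n z)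
    have h3 := mul_le_mul_of_nonneg_left (norm_add_le (f n z) (g n z))
      (pow_nonneg (hκ.h0 n z) (e + e'))
    linarith
  zero_mem' := ⟨Eventually.of_forall fun _ => continuousOn_const, 0,
    hκ.sm (f := 0) (Eventually.of_forall fun _ => continuousOn_const) (sm_one hτ) _
      (Eventually.of_forall fun n z _ => by simp)⟩
  neg_mem' := by
    rintro f ⟨c, e, h⟩
    exact ⟨Eventually.mono c fun _ a => a.neg, e, by simpa using h⟩

lemma T_sm (hτ : Tendsto τ l atTop) (hκ : Wt l r κ) {f : ℕ → ℂ → ℂ} (hf : Ct l r f)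
    (h : Sm l r τ fun n z => ‖f n z‖) : f ∈ T hτ hκ := ⟨hf, 0, by simpa using h⟩

lemma T_bd (hτ : Tendsto τ l atTop) (hκ : Wt l r κ) {f : ℕ → ℂ → ℂ} (hf : Ct l r f) (e : ℕ)
    (h : ∀ᶠ n in l, ∀ z ∈ sphere (0 : ℂ) |r n|, κ n z ^ e * ‖f n z‖ ≤ 1) : f ∈ T hτ hκ :=
  ⟨hf, e, hκ.sm hf (sm_one hτ) e h⟩

lemma T_int (hτ : Tendsto τ l atTop) (hκ : Wt l r κ) {f : ℕ → ℂ → ℂ} (hf : Ct l r f) {d : ℕ}
    {a : ℕ → ℕ → ℂ → ℂ} (ha : ∀ i, a i ∈ T hτ hκ)
    (h : f ^ d + ∑ i ∈ range d, a i * f ^ i = 0) : f ∈ T hτ hκ := by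
  choose e he using fun i => (ha i).2
  refine ⟨hf, ∑ i ∈ range d, e i, hκ.sm hf ((sm_one hτ).add hτ
    (Sm.sum hτ (range d) fun i _ => he i)) _ (Eventually.of_forall fun n z _ => ?_)⟩
  have h1 := root_le (G := f n z) (d := d) (p := fun i => a i n z) (c := fun i => ‖a i n z‖)
    one_pos (fun _ => norm_nonneg _)
    (by simpa [Finset.sum_apply] using congrFun (congrFun h n) z) (fun i _ => by simp)
  rw [mul_one] at h1
  refine (mul_le_mul_of_nonneg_left h1 (pow_nonneg (hκ.h0 n z) _)).trans ?_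
  simp only [Pi.add_apply, Pi.one_apply, Finset.sum_apply, mul_add, mul_one, mul_sum]
  exact add_le_add (pow_le_one₀ (hκ.h0 n z) (hκ.h1 n z)) (sum_le_sum fun i hi =>
    hκ.anti (single_le_sum (f := e) (fun _ _ => Nat.zero_le _) hi) n z _)

end Gen

variable {t a M : ℕ} {w : Fin M → Option (Fin t)} {Θ : Pt t a → Fin M → ℂ} {k : Subfield ℂ}
  {A : AP w Θ k} {φ : A.V →+* ℂ} {D : Der} {p₀ : Pt t a} {l : ℂ}

lemma sph {n : ℕ} {z : ℂ} (hz : z ∈ sphere (0 : ℂ) |A.r n|) : ‖z‖ = A.r n := by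
  simpa [abs_of_pos (A.r0 n)] using hz

lemma sph' {n : ℕ} {z : ℂ} (hz : z ∈ sphere (0 : ℂ) |A.r n|) : ‖z‖ ≤ A.r n + A.η n := by
  linarith [sph hz, (A.num n).2.1]

lemma nz (ml : A.Ml) {y : A.V} (hy : y ∉ A.P) :
    ∀ᶠ n in A.U, ∀ z ∈ sphere (0 : ℂ) |A.r n|, y.1 n z ≠ 0 := by
  obtain ⟨b, hb⟩ := ml.min y hy
  exact hb.mono fun n h z hz => norm_pos_iff.1 ((exp_pos _).trans_le (h z (sph hz)))

lemma cont (x : A.V) (n : ℕ) : ContinuousOn (x.1 n) (sphere 0 |A.r n|) :=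
  (A.hol _ x.2 n).continuousOn.mono (sph_sub (A.r0 n) (A.rR n))

lemma ct_div (ml : A.Ml) (x : A.V) {y : A.V} (hy : y ∉ A.P) :
    Ct A.U A.r fun n z => x.1 n z / y.1 n z :=
  (nz ml hy).mono fun n h => (cont x n).div (cont y n) h

/-- Elements of the residue field with their values on the circles. -/
def Rp (ml : A.Ml) (hE : A.Emb φ D p₀ l) : Subring (ℂ × (ℕ → ℂ → ℂ)) where
  carrier := {q | ∃ x y : A.V, y ∉ A.P ∧ q.1 = φ x / φ y ∧
    ∀ᶠ n in A.U, ∀ z ∈ sphere (0 : ℂ) |A.r n|, q.2 n z = x.1 n z / y.1 n z}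
  mul_mem' := by
    rintro q q' ⟨x, y, hy, e, h⟩ ⟨x', y', hy', e', h'⟩
    refine ⟨x * x', y * y', fun c => (A.prime.mem_or_mem c).elim hy hy', ?_, ?_⟩
    · rw [Prod.fst_mul, e, e', map_mul, map_mul, div_mul_div_comm]
    · filter_upwards [h, h'] with n a b z hz
      simp only [Prod.snd_mul, Pi.mul_apply, Subring.coe_mul, a z hz, b z hz, div_mul_div_comm]
  one_mem' := ⟨1, 1, (Ideal.ne_top_iff_one _).1 A.prime.ne_top, by simp,
    Eventually.of_forall fun _ _ _ => by simp⟩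
  add_mem' := by
    rintro q q' ⟨x, y, hy, e, h⟩ ⟨x', y', hy', e', h'⟩
    refine ⟨x * y' + y * x', y * y', fun c => (A.prime.mem_or_mem c).elim hy hy', ?_, ?_⟩
    · rw [Prod.fst_add, e, e', map_add, map_mul, map_mul, map_mul,
        div_add_div _ _ (mt (hE.ker _).1 hy) (mt (hE.ker _).1 hy')]
    · filter_upwards [h, h', nz ml hy, nz ml hy'] with n a b c d z hz
      simp only [Prod.snd_add, Pi.add_apply, Pi.mul_apply, Subring.coe_mul, Subring.coe_add,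
        a z hz, b z hz, div_add_div _ _ (c z hz) (d z hz)]
  zero_mem' := ⟨0, 1, (Ideal.ne_top_iff_one _).1 A.prime.ne_top, by simp,
    Eventually.of_forall fun _ _ _ => by simp⟩
  neg_mem' := by
    rintro q ⟨x, y, hy, e, h⟩
    refine ⟨-x, y, hy, by rw [Prod.fst_neg, e, map_neg, neg_div], ?_⟩
    filter_upwards [h] with n a z hz
    simp only [Prod.snd_neg, Pi.neg_apply, Subring.coe_neg, a z hz, neg_div]

variable (ml : A.Ml) (hE : A.Emb φ D p₀ l)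

lemma Rp_div (x : A.V) {y : A.V} (hy : y ∉ A.P) :
    (φ x / φ y, fun n z => x.1 n z / y.1 n z) ∈ Rp ml hE :=
  ⟨x, y, hy, rfl, Eventually.of_forall fun _ _ _ => rfl⟩

lemma Rp_ct {q : ℂ × (ℕ → ℂ → ℂ)} (h : q ∈ Rp ml hE) : Ct A.U A.r q.2 := by
  obtain ⟨x, y, hy, -, h⟩ := h
  filter_upwards [h, ct_div ml x hy] with n a b
  exact b.congr a

lemma Rp_zero {q : ℂ × (ℕ → ℂ → ℂ)} (h : q ∈ Rp ml hE) (h0 : q.1 = 0) :
    ∀ᶠ n in A.U, ∀ z ∈ sphere (0 : ℂ) |A.r n|, ‖q.2 n z‖ ≤ 1 := by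
  obtain ⟨x, y, hy, e, h⟩ := h
  have hx : x ∈ A.P := (hE.ker _).1
    ((div_eq_zero_iff.1 (e.symm.trans h0)).resolve_right (mt (hE.ker _).1 hy))
  obtain ⟨b, hb⟩ := ml.min y hy
  filter_upwards [h, hb, A.tiny x hx b] with n a b c z hz
  rw [a z hz, norm_div]
  exact div_le_one_of_le₀ ((c z (sph' hz)).trans (b z (sph hz))) (norm_nonneg _)

variable {κ : ℕ → ℂ → ℝ} (hκ : Wt A.U A.r κ)

/-- The ring of elements that are small for the weight. -/
def SS : Subring ℂ :=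
  (Rp ml hE ⊓ (T A.τtop hκ).comap (RingHom.snd _ _)).map (RingHom.fst _ _)

lemma SS_div (x : A.V) {y : A.V} (hy : y ∉ A.P)
    (h : (fun n z => x.1 n z / y.1 n z) ∈ T A.τtop hκ) : φ x / φ y ∈ SS ml hE hκ :=
  ⟨_, ⟨Rp_div ml hE x hy, h⟩, rfl⟩

lemma SS_int {R : Subring ℂ} (hR : R ≤ SS ml hE hκ) {q : ℂ × (ℕ → ℂ → ℂ)} (hq : q ∈ Rp ml hE)
    (h : IsIntegral R q.1) : q.2 ∈ T A.τtop hκ := by
  obtain ⟨p, hm, hp⟩ := h
  choose c hc hc' using fun i => hR (p.coeff i).2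
  have e1 : q.1 ^ p.natDegree + ∑ i ∈ range p.natDegree, (c i).1 * q.1 ^ i = 0 := by
    rw [Polynomial.eval₂_eq_sum_range, sum_range_succ, hm.coeff_natDegree, map_one, one_mul,
      add_comm] at hp
    rw [← hp]
    congr 1
    exact sum_congr rfl fun i _ => congrArg (· * _) (hc' i)
  generalize p.natDegree = d at e1
  rcases d with _ | d
  · simp at e1
  have hg : q ^ (d + 1) + ∑ i ∈ range (d + 1), c i * q ^ i ∈ Rp ml hE :=
    add_mem (pow_mem hq _) (sum_mem fun i _ => mul_mem (hc i).1 (pow_mem hq _))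
  have hg' := T_bd A.τtop hκ (Rp_ct ml hE hg) 0 (by
    simpa only [pow_zero, one_mul] using Rp_zero ml hE hg (by simpa [Prod.fst_sum] using e1))
  refine T_int A.τtop hκ (Rp_ct ml hE hq) (d := d + 1) (a := fun i => (c i).2 -
    if i = 0 then (q ^ (d + 1) + ∑ i ∈ range (d + 1), c i * q ^ i).2 else 0)
    (fun i => sub_mem (hc i).2 (by split_ifs; exacts [hg', zero_mem _])) ?_
  simp only [sub_mul, sum_sub_distrib, ite_mul, zero_mul, sum_ite_eq', mem_range, Nat.succ_pos,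
    if_true, pow_zero, mul_one, Prod.snd_add, Prod.snd_sum, Prod.snd_mul, Prod.pow_snd]
  ring

include ml in
lemma sm_inv {y : A.V} (hy : y ∉ A.P) (hS : y ∈ A.S) :
    Sm A.U A.r A.τ fun n z => ‖y.1 n z‖⁻¹ := by
  intro ε hε
  filter_upwards [hS (ε / 2) (by positivity), A.big y hy (ε / 2) (by positivity), nz ml hy]
    with n a b c
  refine ⟨a.1.inv₀ fun z hz => norm_ne_zero_iff.2 (c z hz), ?_⟩
  have h1 := av_mono (A.hol _ y.2 n) b.1 one_pos (A.num n).1 (A.rR n)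
  have h2 : (fun z => log⁺ ‖y.1 n z‖⁻¹) = (fun z => log⁺ ‖y.1 n z‖) - fun z => log ‖y.1 n z‖ := by
    funext z
    simp only [Pi.sub_apply]
    linarith [posLog_sub_posLog_inv (x := ‖y.1 n z‖)]
  rw [h2, circleAverage_sub (pl_int a.1) ((A.hol _ y.2 n).int (A.r0 n) (A.rR n))]
  have h3 := a.2
  have h4 := b.2
  unfold av at h1 h4
  linarith

lemma KK_le : ∀ u ∈ A.KK φ, u ∈ SS ml hE hκ := by
  intro u hu
  obtain ⟨x', hx, y', hy, rfl⟩ := Subfield.mem_closure_iff.1 hu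
  rw [← Subring.coe_map, Subring.closure_eq] at hx hy
  obtain ⟨x, hx, rfl⟩ := hx
  obtain ⟨y, hy, rfl⟩ := hy
  by_cases h : y ∈ A.P
  · rw [(hE.ker _).2 h, div_zero]; exact zero_mem _
  refine SS_div ml hE hκ x h (T_sm _ _ (ct_div ml x h) ?_)
  simp only [norm_div, div_eq_mul_inv, norm_mul, norm_inv]
  exact Sm.mul A.τtop hx (sm_inv ml h hy)

include hE in
lemma rat_eq (c b : Fin M) : Θ p₀ c / Θ p₀ b = φ (A.θ c) / φ (A.θ b) := by
  rw [hE.th, hE.th, mul_div_mul_left _ _ hE.l0]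

lemma ld_mem {ψ : ℂ} (h : ψ ∈ FL (A.KK φ) (Θ p₀)) : D ψ / ψ ∈ SS ml hE hκ := by
  have h1 : FL (A.KK φ) (Θ p₀) ≤ Subfield.closure (φ.range : Set ℂ) :=
    FL_le (Subfield.closure_mono (by rintro _ ⟨x, -, rfl⟩; exact ⟨x, rfl⟩)) (by
      rintro _ ⟨c, b, rfl⟩
      rw [rat_eq hE]
      exact div_mem (Subfield.subset_closure ⟨_, rfl⟩) (Subfield.subset_closure ⟨_, rfl⟩))
  obtain ⟨x', hx, y', hy, rfl⟩ := Subfield.mem_closure_iff.1 (h1 h)
  rw [Subring.closure_eq] at hx hy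
  obtain ⟨x, rfl⟩ := hx
  obtain ⟨y, rfl⟩ := hy
  by_cases hx : x ∈ A.P
  · rw [(hE.ker _).2 hx, zero_div, div_zero]; exact zero_mem _
  by_cases hy : y ∈ A.P
  · rw [(hE.ker _).2 hy, div_zero, div_zero]; exact zero_mem _
  have hx' := mt (hE.ker _).1 hx
  have hy' := mt (hE.ker _).1 hy
  have e : D (φ x / φ y) / (φ x / φ y) = φ (A.D x) / φ x - φ (A.D y) / φ y := by
    rw [Derivation.leibniz_div, hE.der, hE.der]
    simp only [smul_eq_mul]
    field_simp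
  rw [e]
  exact sub_mem (SS_div ml hE hκ _ hx (T_sm _ _ (ct_div ml _ hx) (ml.lld x hx)))
    (SS_div ml hE hκ _ hy (T_sm _ _ (ct_div ml _ hy) (ml.lld y hy)))

variable (A) in
/-- The weight of a chart. -/
noncomputable def kap (β : Cht M t) (n : ℕ) (z : ℂ) : ℝ :=
  ∏ c, (max 1 ‖(A.θ c).1 n z / (A.θ (β (w c))).1 n z‖)⁻¹

include hE in
lemma th_P (c : Fin M) : A.θ c ∉ A.P ↔ Θ p₀ c ≠ 0 := by
  rw [← hE.ker, hE.th, mul_eq_zero_iff_left hE.l0]

include ml hE in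
lemma kap_wt {β : Cht M t} (hβ : Ch w β (Θ p₀)) : Wt A.U A.r (kap A β) where
  h0 n z := prod_nonneg fun _ _ => by positivity
  h1 n z := prod_le_one (fun _ _ => by positivity) fun _ _ => inv_le_one_of_one_le₀ (le_max_left _ _)
  hc := by
    filter_upwards [eventually_all.2 fun c => ct_div ml (A.θ c) ((th_P hE _).2 (hβ (w c)).2)]
      with n h
    exact continuousOn_finsetProd _ fun c _ => (continuousOn_const.sup (h c).norm).inv₀
      fun z _ => (one_pos.trans_le (le_max_left _ _)).ne'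

lemma LR_le {β : Cht M t} (hβ : Ch w β (Θ p₀)) :
    LR w β (A.KK φ) D (Θ p₀) ≤ SS ml hE (kap_wt ml hE hβ) := by
  refine Subring.closure_le.2 ?_
  rintro u ((hu | ⟨c, rfl⟩) | ⟨ψ, h, rfl⟩)
  · exact KK_le ml hE _ u hu
  · have hP := (th_P hE _).2 (hβ (w c.1)).2
    rw [xc, rat_eq hE]
    refine SS_div ml hE _ _ hP (T_bd _ _ (ct_div ml _ hP) 1
      (Eventually.of_forall fun n z _ => ?_))
    have h1 : kap A β n z ≤ (max 1 ‖(A.θ c.1).1 n z / (A.θ (β (w c.1))).1 n z‖)⁻¹ := by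
      rw [kap, ← mul_prod_erase _ _ (mem_univ c.1)]
      exact mul_le_of_le_one_right (by positivity) (prod_le_one (fun _ _ => by positivity)
        fun _ _ => inv_le_one_of_one_le₀ (le_max_left _ _))
    rw [pow_one]
    refine (mul_le_mul_of_nonneg_right h1 (norm_nonneg _)).trans ?_
    rw [inv_mul_eq_div]
    exact div_le_one_of_le₀ (le_max_right _ _) (by positivity)
  · exact ld_mem ml hE _ h

include hE in
lemma exists_chart : ∀ᶠ n in A.U, ∀ z ∈ sphere (0 : ℂ) |A.r n|,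
    ∃ β, Ch w β (Θ p₀) ∧ kap A β n z = 1 := by
  obtain ⟨b, hb⟩ := A.low
  have h1 : ∀ c, ∀ᶠ n in A.U, A.θ c ∈ A.P → ∀ z, ‖z‖ ≤ A.r n + A.η n →
      ‖(A.θ c).1 n z‖ ≤ exp (-A.τ n ^ (b + 1)) := fun c => by
    by_cases h : A.θ c ∈ A.P
    · exact (A.tiny _ h _).mono fun _ a _ => a
    · exact Eventually.of_forall fun _ a => absurd a h
  filter_upwards [hb, eventually_all.2 h1, A.τtop.eventually_gt_atTop 1] with n h2 h3 h4 z hz
  have h5 : ∀ o, ∃ c, w c = o ∧ Θ p₀ c ≠ 0 ∧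
      ∀ c', w c' = o → ‖(A.θ c').1 n z‖ ≤ ‖(A.θ c).1 n z‖ := fun o => by
    obtain ⟨c₀, e, h6⟩ := h2 z (sph' hz) o
    obtain ⟨c, hc, hm⟩ := exists_max_image (univ.filter fun c => w c = o)
      (fun c => ‖(A.θ c).1 n z‖) ⟨c₀, by simp [e]⟩
    refine ⟨c, by simpa using hc, (th_P hE c).1 fun hP => ?_, fun c' e' => hm c' (by simp [e'])⟩
    have h7 := (h6.trans (hm c₀ (by simp [e]))).trans (h3 c hP z (sph' hz))
    rw [exp_le_exp, neg_le_neg_iff] at h7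
    exact absurd (pow_lt_pow_right₀ h4 (Nat.lt_succ_self b)) (not_lt.2 h7)
  choose β h6 h7 h8 using h5
  refine ⟨β, fun o => ⟨h6 o, h7 o⟩, prod_eq_one fun c _ => ?_⟩
  rw [max_eq_left, inv_one]
  rw [norm_div]
  exact div_le_one_of_le₀ (h8 _ c rfl) (norm_nonneg _)

end Sr

open Sr in
theorem sSr : SSr := by
  intro t a M w Θ k A φ D p₀ l _ ml hE x y hy h
  classical
  have h1 : ∀ β : {β : Cht M t // Ch w β (Θ p₀)}, ∃ e : ℕ,
      Sm A.U A.r A.τ fun n z => kap A β.1 n z ^ e * ‖x.1 n z / y.1 n z‖ := fun β =>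
    (SS_int ml hE _ (LR_le ml hE β.2) (Rp_div ml hE x hy) (h β.1 β.2)).2
  choose e he using h1
  refine monoE (Sm.sum A.τtop univ fun β _ => he β)
    (Eventually.mono (ct_div ml x hy) fun _ a => a.norm) ?_
  filter_upwards [exists_chart hE] with n h2 z hz
  obtain ⟨β, hβ, h3⟩ := h2 z hz
  refine ⟨norm_nonneg _, ?_⟩
  simp only [Finset.sum_apply]
  refine le_trans (le_of_eq ?_) (single_le_sum (f := fun β : {β : Cht M t // Ch w β (Θ p₀)} =>
    kap A β.1 n z ^ e β * ‖x.1 n z / y.1 n z‖) (fun β _ => mul_nonneg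
      (pow_nonneg ((kap_wt ml hE β.2).h0 n z) _) (norm_nonneg _)) (mem_univ ⟨β, hβ⟩))
  simp only [h3, one_pow, one_mul]

end Pool.Agent.MP_c69980_ag.H43
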