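import Pool.Agent.MP_c69980_ag.H43.Spec9

/-!
The existence of a nonconstant function on the generic leaf.
-/

set_option autoImplicit false

namespace Pool.Agent.MP_c69980_ag.H43

open H60 Finset Filter

lemma bigC_unif {K : Type} [Field K] (V : ValuationSubring K) (h : IsDiscreteValuationRing V) :
    ∃ π : K, π ≠ 0 ∧ V.valuation π < 1 ∧ (∀ x, V.valuation x < 1 → V.valuation x ≤ V.valuation π) ∧
      ∀ y : K, ∀ᶠ J in atTop, π ^ J * y ∈ V := by
  obtain ⟨π, hπ⟩ := IsDiscreteValuationRing.exists_irreducible V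
  refine ⟨π, fun e => hπ.ne_zero (Subtype.ext e), (V.valuation_lt_one_iff π).1 ?_, fun x hx => ?_,
    fun y => ?_⟩
  · rw [hπ.maximalIdeal_eq]
    exact Ideal.mem_span_singleton_self π
  · have h1 := (V.valuation_lt_one_iff ⟨x, (V.valuation_le_one_iff x).1 hx.le⟩).2 hx
    rw [hπ.maximalIdeal_eq, Ideal.mem_span_singleton] at h1
    obtain ⟨v, hv⟩ := h1
    rw [show x = π * v from congrArg Subtype.val hv, map_mul]
    exact mul_le_of_le_one_right' (V.valuation_le_one v)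
  · obtain ⟨⟨p, p'⟩, hp⟩ := IsLocalization.surj (nonZeroDivisors V) y
    obtain ⟨N, v, hv⟩ := IsDiscreteValuationRing.eq_unit_mul_pow_irreducible
      (nonZeroDivisors.ne_zero p'.2) hπ
    filter_upwards [eventually_ge_atTop N] with J hJ
    obtain ⟨J, rfl⟩ := Nat.exists_eq_add_of_le hJ
    have e : (π : V) ^ N = (↑v⁻¹ : V) * p'.1 := by rw [hv, Units.inv_mul_cancel_left]
    have e' : (π : K) ^ N = ((↑v⁻¹ : V) : K) * p'.1 := congrArg Subtype.val e
    have e'' : y * (p'.1 : K) = p := hp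
    have : (π : K) ^ (N + J) * y = π ^ J * ((↑v⁻¹ : V) : K) * p := by
      rw [pow_add, e', ← e'']
      ring
    rw [this]
    exact mul_mem (mul_mem (pow_mem π.2 J) (↑v⁻¹ : V).2) p.2

lemma bigC_wt {M : ℕ} {K : Type} [Field K] {u : Fin M → K} {b : Fin M} (hb : u b = 1) {j : ℕ}
    {V : ValuationSubring K} {x p : K} (hx : Wt u j V x) (hp : ∀ c, p * u c ^ j ∈ V) :
    p * x ∈ V := by
  have : Nonempty (Fin M) := ⟨b⟩
  obtain ⟨c, hc⟩ := Finite.exists_max fun c => V.valuation (u c)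
  have h0 : u c ≠ 0 := fun e => by simpa [e, hb] using hc b
  have : p * x = p * u c ^ j * (x / u c ^ j) := by field_simp
  rw [this]
  exact mul_mem (hp c) (hx c hc)

theorem sBigC (h1 : SMany) (h2 : SFil) (h3 : SKill) (h4 : SHilb) : SBigC := by
  intro t a M w Θ PP K _ _ u F r lam d f G g1 gk bx hg hN
  classical
  obtain ⟨b, -, hb⟩ := bx.on.blk none
  wlog hu : u b = 1 generalizing u
  · have hc := inv_ne_zero hb
    have e : ((u b)⁻¹ • u) b = 1 := inv_mul_cancel₀ hb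
    refine this _ (bx.smul hc) (fun c c1 c2 => hN c c1 fun β V y hD hV => ?_)
      (e ▸ one_ne_zero) e
    have := c2 β V y ⟨(ch_smul hc β).2 hD.ch, hD.fV, by rw [co_smul hc]; exact hD.cV,
      by rw [co_smul hc]; exact hD.res⟩ hV
    rwa [co_smul hc] at this
  obtain ⟨j, T, hT⟩ := h1 t a M w Θ PP K u F r lam d f G b g1 gk bx hg hN hu
  choose! π p0 p1 p2 p3 using fun V (hV : V ∈ G) => bigC_unif V (hg.dvr V hV)
  let s : Finset (ValuationSubring K) := univ.biUnion fun c => (hg.fin (u c)).toFinset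
  have hs : ∀ V, V ∈ s ↔ V ∈ G ∧ ∃ c, u c ∉ V := fun V => by simp [s]
  obtain ⟨J, hJ⟩ := ((eventually_all_finset s).2 fun V hV => eventually_all.2 fun c =>
    p3 V ((hs V).1 hV).1 (u c ^ j)).exists
  obtain ⟨N, g, C₀, st, hr⟩ := h2 K F _ d (T ∪ s.image π) (fun l x hx => (bx.cst x).1 hx l) bx.fg
  rw [coe_union, Set.union_subset_iff] at hr
  obtain ⟨C', hC'⟩ := hT N g C₀ st hr.1
  obtain ⟨C₁, hC₁⟩ := h4 F K (Fin N) g (r + 1) fun y => by
    by_contra hn
    push Not at hn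
    have h5 := (algebraicIndependent_iff.2 fun H hH =>
      by_contra fun e => hn H e hH).cardinalMk_le_trdeg
    rw [← bx.tb.cardinalMk_eq_trdeg] at h5
    simp only [Cardinal.mk_fin, Nat.cast_le] at h5
    omega
  obtain ⟨C, hC⟩ := h3 F K N r C₁ J g s π hC₁ fun V hV =>
    have hV' := ((hs V).1 hV).1
    ⟨fun c => hg.fV V hV' c c.2, hr.2 (mem_image_of_mem π hV), p0 V hV', p1 V hV', p2 V hV'⟩
  by_contra hn
  push Not at hn
  obtain ⟨k, hk⟩ : ∃ k, k = C' * (1 + C * (C' + 1) ^ r) := ⟨_, rfl⟩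
  obtain ⟨W, w1, w2, w3⟩ := hC' k
  obtain ⟨W', a1, a2, a3⟩ := hC _ W w1 fun V hV x hx =>
    bigC_wt hu (w2 x hx V ((hs V).1 hV).1) (hJ V hV)
  have a4 : W' ≤ Submodule.span F {1} := fun x hx => by
    have hF : x ∈ F := by_contra fun e => by
      obtain ⟨V, hV, hx'⟩ := hn x e
      by_cases h : V ∈ s
      · exact hx' (a2 V h x hx)
      · refine hx' (one_mul x ▸ bigC_wt hu (w2 x (a1 hx) V hV) fun c => ?_)
        rw [one_mul]
        exact pow_mem (by_contra fun e' => h ((hs V).2 ⟨hV, c, e'⟩)) j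
    exact Submodule.mem_span_singleton.2 ⟨⟨x, hF⟩, mul_one x⟩
  have a5 := Submodule.finrank_mono a4
  rw [finrank_span_singleton one_ne_zero] at a5
  have a6 : (C' * (k + 1) + 1) ^ r ≤ (C' + 1) ^ r * (k + 1) ^ r := by
    rw [← mul_pow]
    exact Nat.pow_le_pow_left (by nlinarith) r
  have a7 : 1 ≤ (k + 1) ^ r := Nat.one_le_pow _ _ k.succ_pos
  have a8 : (k + 1) * (k + 1) ^ r ≤ k * (k + 1) ^ r :=
    calc (k + 1) * (k + 1) ^ r = (k + 1) ^ (r + 1) := by ring
      _ ≤ C' * ((k + 1) ^ r + C * ((C' + 1) ^ r * (k + 1) ^ r)) :=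
          w3.trans (Nat.mul_le_mul_left _ (a3.trans (by gcongr; exact a5.trans a7)))
      _ = C' * (1 + C * (C' + 1) ^ r) * (k + 1) ^ r := by ring
      _ = k * (k + 1) ^ r := by rw [← hk]
  have := Nat.le_of_mul_le_mul_right a8 a7
  omega

end Pool.Agent.MP_c69980_ag.H43
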